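import Pool.Agent.H41.Lib.H326R2.Pi.Stmts
/-!
# Irrationality measure of `π`, task T19 (helper57): denominators of the linear forms
-/

open Polynomial Filter

namespace Pool.Agent.H57R2.PiT19

open Pool.Agent.H326R2.Pi

attribute [local irreducible] Om

theorem dvd_lcmUpto (N j : ℕ) (h1 : 1 ≤ j) (h2 : j ≤ N) : j ∣ Nat.lcmUpto N := by
  unfold Nat.lcmUpto
  exact Finset.dvd_lcm (f := id) (Finset.mem_Icc.2 ⟨h1, h2⟩)

theorem PP_natDegree (n : ℕ) : (PP ℤ n).natDegree ≤ 8 * n := by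
  unfold PP
  have h2 : (X - 2 : ℤ[X]).natDegree ≤ 1 := by
    have := natDegree_X_sub_C_le (2 : ℤ)
    simpa using this
  have h3 : (X - 3 : ℤ[X]).natDegree ≤ 1 := by
    have := natDegree_X_sub_C_le (3 : ℤ)
    simpa using this
  refine natDegree_mul_le.trans ?_
  have e1 : ((X - 2 : ℤ[X]) ^ (3 * n)).natDegree ≤ 3 * n * 1 := natDegree_pow_le_of_le _ h2
  have e2 : ((X - 3 : ℤ[X]) ^ (5 * n)).natDegree ≤ 5 * n * 1 := natDegree_pow_le_of_le _ h3
  omega

theorem PP_map (n : ℕ) : (PP ℤ n).map (Int.castRingHom ℚ) = PP ℚ n := by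
  unfold PP
  simp [Polynomial.map_mul, Polynomial.map_pow, Polynomial.map_sub]

theorem LL_map (m : ℕ) (Φ : ℤ[X]) :
    (LL m Φ).map (Int.castRingHom ℚ) = LL m (Φ.map (Int.castRingHom ℚ)) := by
  unfold LL
  simp [Polynomial.map_mul, Polynomial.map_pow, Polynomial.map_sub, Polynomial.derivative_map]

theorem LL_C (m : ℕ) (r : ℚ) (Φ : ℚ[X]) : LL m (C r * Φ) = C r * LL m Φ := by
  unfold LL
  rw [derivative_C_mul]
  ring

theorem den_dvd_of (x : ℚ) (c : ℕ) (b : ℤ) (h : (c : ℚ) * x = b) : x.den ∣ c := by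
  have h1 : (c : ℤ) * x.num = b * x.den := by
    have h2 : (x.den : ℚ) ≠ 0 := by exact_mod_cast x.den_nz
    have h3 : x = x.num / x.den := (Rat.num_div_den x).symm
    rw [h3] at h
    field_simp at h
    have h5 : (c : ℤ) * x.num = x.den * b := by exact_mod_cast h
    rw [h5]; ring
  have h4 : (x.den : ℤ) ∣ (c : ℤ) * x.num := ⟨b, by rw [h1]; ring⟩
  have h5 : IsCoprime (x.den : ℤ) x.num := by
    rw [Int.isCoprime_iff_gcd_eq_one, Int.gcd_comm]
    exact x.reduced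
  have h6 := h5.dvd_of_dvd_mul_right h4
  exact_mod_cast h6

theorem of_den_dvd (x : ℚ) (c : ℕ) (h : x.den ∣ c) : ∃ b : ℤ, (c : ℚ) * x = b := by
  obtain ⟨d, rfl⟩ := h
  refine ⟨d * x.num, ?_⟩
  have h2 : (x.den : ℚ) ≠ 0 := by exact_mod_cast x.den_nz
  have h3 : x * x.den = x.num := Rat.mul_den_eq_num x
  push_cast
  rw [← h3]
  ring

theorem s_den (hT : S_term) (hG : S_good) (h2 : S_two) (hk : S_k) (hO : S_Om) : S_den := by
  intro n hn
  have hn0 : 0 < n := by omega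
  obtain ⟨k, Φ, hdeg, hΦ⟩ := hT (2 * n) (4 * n) (Nat.lcmUpto (4 * n)) (by omega) (by omega)
    (fun j h1 h2 => dvd_lcmUpto _ _ h1 h2) (PP ℤ n) ((PP_natDegree n).trans (by omega))
  have hdeg' : Φ.natDegree ≤ 8 * n - 1 := hdeg.trans (by omega)
  set L := Nat.lcmUpto (4 * n) with hL
  have hL0 : L ≠ 0 := Nat.lcmUpto_ne_zero _
  set cc : ℚ := ((64 ^ n * L : ℕ) : ℚ) with hcc
  have hcc0 : cc ≠ 0 := by
    rw [hcc]; exact_mod_cast (by positivity : 64 ^ n * L ≠ 0)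
  set Ψ : ℚ[X] := C cc⁻¹ * Φ.map (Int.castRingHom ℚ) with hΨ
  have hΦΨ : Φ.map (Int.castRingHom ℚ) = C cc * Ψ := by
    rw [hΨ, ← mul_assoc, ← C_mul, mul_inv_cancel₀ hcc0, C_1, one_mul]
  have hSol : Sol n k Ψ := by
    unfold Sol
    rw [hΨ, LL_C, ← LL_map, hΦ]
    have e8 : (8 : ℤ[X]) ^ (2 * n) = ((64 ^ n : ℕ) : ℤ[X]) := by
      push_cast; rw [pow_mul]; norm_num
    rw [e8]
    simp only [Polynomial.map_mul, Polynomial.map_sub, Polynomial.map_pow, PP_map,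
      Polynomial.map_natCast]
    have e1 : (((64 ^ n : ℕ) : ℚ[X]) * (L : ℚ[X])) = C cc := by
      rw [hcc, ← Nat.cast_mul, C_eq_natCast]
    rw [e1, ← mul_assoc, ← C_mul, inv_mul_cancel₀ hcc0, C_1, one_mul]
    simp
  have hΨdeg : Ψ.natDegree ≤ 8 * n - 1 := by
    rw [hΨ]
    refine (natDegree_C_mul_le _ _).trans ((natDegree_map_le).trans hdeg')
  have hkk : k = kk n := hk n hn0 k Ψ hSol hΨdeg
  subst hkk
  refine ⟨Ψ, hSol, ?_⟩
  obtain ⟨m, hm, b, hb⟩ := h2 n hn0 _ Φ Ψ hSol hdeg' hΦΨ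
  set x := qq n Ψ with hx
  -- (i)
  have h16 : (16 : ℚ) ^ n ≠ 0 := by positivity
  have hi : x.den ∣ 1024 ^ n * L := by
    apply den_dvd_of x _ (8 * Φ.eval 2)
    have e1 : ((Φ.eval 2 : ℤ) : ℚ) = cc * Ψ.eval 2 := by
      have := congrArg (Polynomial.eval (2 : ℚ)) hΦΨ
      rw [eval_mul, eval_C] at this
      rw [← this]
      have h3 : (2 : ℚ) = (Int.castRingHom ℚ) 2 := by simp
      rw [h3, eval_map_apply, eq_intCast]
    rw [hx]
    unfold qq
    push_cast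
    rw [e1, hcc]
    push_cast
    have e2 : (1024 : ℚ) ^ n = 16 ^ n * 64 ^ n := by rw [← mul_pow]; norm_num
    rw [e2]
    field_simp
  -- (ii)
  have hii : ∀ p ∈ Om n, ¬ p ∣ x.den := by
    intro p hp hpd
    obtain ⟨hpp, hp2, hp4, hp8, A, B, D, a, b', δ, q1, q2, q3, q4, q5⟩ := hO n p hn hp
    have hg := hG n p A B D a b' δ hn0 hpp hp2 q1 q2 q3 q4 q5 hp8 (kk n) Ψ hSol
    have h3 : x.den ∣ 16 ^ n * (Ψ.eval 2).den := by
      apply den_dvd_of x _ (8 * (Ψ.eval 2).num)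
      have h4 : Ψ.eval 2 * (Ψ.eval 2).den = (Ψ.eval 2).num := Rat.mul_den_eq_num _
      rw [hx]
      unfold qq
      push_cast
      rw [← h4]
      field_simp
    rcases (Nat.Prime.dvd_mul hpp).1 (hpd.trans h3) with h5 | h5
    · have h6 := hpp.dvd_of_dvd_pow h5
      have h7 : p ∣ 2 ^ 4 := by norm_num; exact h6
      exact hp2 ((Nat.prime_dvd_prime_iff_eq hpp Nat.prime_two).1 (hpp.dvd_of_dvd_pow h7))
    · exact hg h5
  -- (iii)
  have hiii : x.den ∣ m * 2 ^ kap n := by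
    apply den_dvd_of x _ b
    push_cast
    exact hb
  -- factor the denominator
  obtain ⟨e, d', hd', hden⟩ := Nat.exists_eq_two_pow_mul_odd x.den_nz
  have h2e : 2 ^ e ∣ 2 ^ kap n := by
    have h3 : 2 ^ e ∣ m * 2 ^ kap n := (Dvd.intro _ hden.symm).trans hiii
    have h4 : Nat.Coprime (2 ^ e) m := by
      apply Nat.Coprime.pow_left
      exact (Nat.coprime_two_left).2 hm
    exact h4.dvd_of_dvd_mul_left h3
  have hd'L : d' ∣ L := by
    have h3 : d' ∣ 1024 ^ n * L := (Dvd.intro_left _ hden.symm).trans hi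
    have h4 : Nat.Coprime d' (1024 ^ n) := by
      apply Nat.Coprime.pow_right
      have : (1024 : ℕ) = 2 ^ 10 := by norm_num
      rw [this]
      apply Nat.Coprime.pow_right
      exact (Nat.coprime_two_right).2 hd'
    exact h4.dvd_of_dvd_mul_left h3
  have hDn : Dn n ∣ L := by
    unfold Dn
    apply Finset.prod_primes_dvd
    · intro p hp
      exact (hO n p hn hp).1.prime
    · intro p hp
      have := hO n p hn hp
      exact dvd_lcmUpto _ _ this.1.one_lt.le this.2.2.1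
  have hMn : L = Mn n * Dn n := by
    unfold Mn
    rw [Nat.div_mul_cancel hDn]
  have hcop : Nat.Coprime d' (Dn n) := by
    unfold Dn
    apply Nat.Coprime.prod_right
    intro p hp
    have hpp := (hO n p hn hp).1
    rw [Nat.coprime_comm, hpp.coprime_iff_not_dvd]
    intro h3
    exact hii p hp (h3.trans (Dvd.intro_left _ hden.symm))
  have hd'M : d' ∣ Mn n := by
    rw [hMn] at hd'L
    exact hcop.dvd_of_dvd_mul_right hd'L
  have hfin : x.den ∣ 2 ^ kap n * Mn n := by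
    rw [hden]
    exact mul_dvd_mul h2e hd'M
  obtain ⟨b'', hb''⟩ := of_den_dvd x _ hfin
  refine ⟨b'', ?_⟩
  rw [← hb'']
  push_cast
  rfl

end Pool.Agent.H57R2.PiT19
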